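import Pool.Agent.W543.MO.Parts

/-!
# MO-TRCOMP: the intersection number of a correspondence and a transposed one
-/

set_option autoImplicit false

open CategoryTheory AlgebraicGeometry

universe u v w

namespace Pool.Agent.W554.MO

open Pool.Agent.H914 Pool.Agent.H914.VarClass Pool.Agent.H914.VarClass.Obj Pool.Agent.W492.BB
  Pool.Agent.W550.Corr Pool.Agent.W484.CK Pool.Agent.W543.MO

section

variable {k : Type u} [Field k] {𝒱 : VarClass k}

/-- `(X × Y) × X ⟶ (X × X) × Y`. -/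
noncomputable def fi (X Y : 𝒱.Obj) : (X.prod Y).prod X ⟶ (X.prod X).prod Y :=
  Obj.lift (Obj.lift (fst (X.prod Y) X ≫ fst X Y) (snd (X.prod Y) X))
    (fst (X.prod Y) X ≫ snd X Y)

/-- `(X × X) × Y ⟶ (X × Y) × X`. -/
noncomputable def ps (X Y : 𝒱.Obj) : (X.prod X).prod Y ⟶ (X.prod Y).prod X :=
  Obj.lift (Obj.lift (fst (X.prod X) Y ≫ fst X X) (snd (X.prod X) Y))
    (fst (X.prod X) Y ≫ snd X X)

lemma fi_ps (X Y : 𝒱.Obj) : fi X Y ≫ ps X Y = 𝟙 _ := by
  apply prod_ext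
  · apply prod_ext <;> simp [fi, ps, comp_lift]
  · simp [fi, ps, comp_lift]

lemma ps_fi (X Y : 𝒱.Obj) : ps X Y ≫ fi X Y = 𝟙 _ := by
  apply prod_ext
  · apply prod_ext <;> simp [fi, ps, comp_lift]
  · simp [fi, ps, comp_lift]

variable {F : Type w} [Field F] {δ : ℤ} (T : TheoryData.{u, v, w} 𝒱 F) [hT : IsTheory T δ]
  [hI : HasIso T]

include hT hI

lemma pull_dg (X Y : 𝒱.Obj) :
    T.pull (t13 X Y X) (dg T X) = T.push (Obj.lift (𝟙 (X.prod Y)) (fst X Y)) 1 := by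
  have e1 : t13 X Y X = fi X Y ≫ fst (X.prod X) Y := by
    apply prod_ext <;> simp [fi, t13]
  rw [e1, T.pull_comp, dg, TheoryData.graph, T.base_fst, pull_iso T (fi X Y) (ps X Y) (fi_ps X Y)
    (ps_fi X Y), ← T.push_comp, map_one]
  have e2 : prodMap (Obj.lift (𝟙 X) (𝟙 X)) (𝟙 Y) ≫ ps X Y =
      Obj.lift (𝟙 (X.prod Y)) (fst X Y) := by
    apply prod_ext
    · apply prod_ext <;> simp [ps, comp_lift]
    · simp [ps, comp_lift]
  rw [e2]

end

theorem t_TRCOMP : Pool.Agent.W543.MO.TRCOMP_stmt := by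
  intro k _ 𝒱 C _ _ K _ H _ X Y f g
  set j : X.prod Y ⟶ (X.prod Y).prod X := Obj.lift (𝟙 (X.prod Y)) (fst X Y) with hj
  set w : C.A ((X.prod Y).prod X) := C.pull (t23 X Y X) g * C.pull (fst (X.prod Y) X) f with hw
  have h1 : C.comp f g * dg C X = C.push (t13 X Y X) (C.push j (C.pull j w)) := by
    have e1 : C.comp f g = C.push (t13 X Y X) w := rfl
    rw [e1, ← C.proj_right, pull_dg C X Y, ← hj, ← C.proj_left, mul_one]
  have h2 : C.pull j w = f * C.pull (sw X Y) g := by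
    rw [hw, map_mul, ← C.pull_comp, ← C.pull_comp]
    have e2 : j ≫ t23 X Y X = sw X Y := by
      apply prod_ext <;> simp [hj, t23, sw]
    have e3 : j ≫ fst (X.prod Y) X = 𝟙 _ := by
      simp [hj]
    rw [e2, e3, C.pull_id, chow_mul_comm]
  rw [h1, h2, H.cl_push, H.cl_push, H.tr_push, H.tr_push]

end Pool.Agent.W554.MO
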